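import Pool.Agent.Helper25.HL.Goals2

/-!
# Project HL, packet R4
-/

set_option autoImplicit false

noncomputable section

namespace Pool.Agent.Helper64.HL

open Pool.Agent.Helper25.HL

/-- union bound -/
theorem cnt_union {p q : ℕ} {ι : Type} (F : Finset ι) (P : (Fin p → Fin q → Bool) → Prop)
    (Q : ι → (Fin p → Fin q → Bool) → Prop) (B : ℝ)
    (h : ∀ σ, P σ → ∃ x ∈ F, Q x σ) (hQ : ∀ x ∈ F, (cnt (Q x) : ℝ) ≤ B) :
    (cnt P : ℝ) ≤ F.card * B := by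
  classical
  have h1 : (Finset.univ.filter P) ⊆ F.biUnion (fun x => Finset.univ.filter (Q x)) := by
    intro σ hσ
    rw [Finset.mem_filter] at hσ
    obtain ⟨x, hx, hq⟩ := h σ hσ.2
    rw [Finset.mem_biUnion]
    exact ⟨x, hx, by rw [Finset.mem_filter]; exact ⟨Finset.mem_univ _, hq⟩⟩
  have h2 : cnt P ≤ ∑ x ∈ F, cnt (Q x) := by
    have h3 := (Finset.card_le_card h1).trans Finset.card_biUnion_le
    unfold cnt
    convert h3
  have h4 : (cnt P : ℝ) ≤ ∑ x ∈ F, (cnt (Q x) : ℝ) := by exact_mod_cast h2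
  refine h4.trans ((Finset.sum_le_sum hQ).trans ?_)
  rw [Finset.sum_const, nsmul_eq_mul]

/-- number of small subsets -/
theorem small_sets (q N : ℕ) :
    ((Finset.univ : Finset (Finset (Fin q))).filter (fun S => S.card ≤ N)).card ≤
      (q + 1) ^ N := by
  classical
  have h1 : ((Finset.univ : Finset (Finset (Fin q))).filter (fun S => S.card ≤ N)) ⊆
      (Finset.univ : Finset (Fin N → Option (Fin q))).image
        (fun f => Finset.univ.filter (fun t => ∃ i, f i = some t)) := by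
    intro S hS
    rw [Finset.mem_filter] at hS
    rw [Finset.mem_image]
    let g := S.equivFin.symm
    refine ⟨fun i => if h : (i : ℕ) < S.card then some (g ⟨i, h⟩ : Fin q) else none,
      Finset.mem_univ _, ?_⟩
    ext t
    rw [Finset.mem_filter]
    constructor
    · rintro ⟨-, i, hi⟩
      dsimp only at hi
      by_cases h : (i : ℕ) < S.card
      · rw [dif_pos h] at hi
        have := Option.some_injective _ hi
        rw [← this]
        exact (g ⟨i, h⟩).2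
      · rw [dif_neg h] at hi
        exact absurd hi (by simp)
    · intro ht
      refine ⟨Finset.mem_univ _, ?_⟩
      let j := S.equivFin ⟨t, ht⟩
      refine ⟨⟨j, lt_of_lt_of_le j.2 hS.2⟩, ?_⟩
      have hj : ((⟨j, lt_of_lt_of_le j.2 hS.2⟩ : Fin N) : ℕ) < S.card := j.2
      dsimp only
      rw [dif_pos hj]
      congr 1
      show ((g j : S) : Fin q) = t
      have : g j = ⟨t, ht⟩ := S.equivFin.symm_apply_apply _
      rw [this]
  refine (Finset.card_le_card h1).trans (Finset.card_image_le.trans ?_)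
  rw [Finset.card_univ, Fintype.card_fun, Fintype.card_option, Fintype.card_fin, Fintype.card_fin]

/-- the good event for fixed data -/
def Good {p q d N : ℕ} (Z : ℕ) (S : Finset (Fin q)) (e : Fin N → Fin d → ℂ)
    (α : Fin N → Fin p → ℂ) (b γ : Fin N → Fin q → ℂ) (σ : Fin p → Fin q → Bool) : Prop :=
  ∀ (M₁ : Matrix (Fin p) (Fin d) ℂ) (M₂ : Matrix (Fin p) (Fin p) ℂ)
    (M₃ : Matrix (Fin p) (Fin q) ℂ) (h : Fin N → Fin p → ℂ),
    (∀ i, h i = M₁.mulVec (e i) + M₂.mulVec (α i) + M₃.mulVec (res S (b i))) →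
    ‖∑ i, ip (h i) (RV σ (γ i))‖ ^ 2 ≤ ((N : ℝ) / Z) * ∑ i, sq (h i)

/-- the hypotheses on the data -/
def Hyp {p q d N : ℕ} (Z : ℕ) (S : Finset (Fin q)) (e : Fin N → Fin d → ℂ)
    (α : Fin N → Fin p → ℂ) (b γ : Fin N → Fin q → ℂ) : Prop :=
  32 * Z ^ 3 * (d + p + S.card) ≤ N ∧ (∀ i, GB (p ^ 2) (e i)) ∧ (∀ i, GI Z (α i)) ∧
    (∀ i, GI Z (b i)) ∧ (∀ i, GI Z (γ i)) ∧ Disj γ

/-- the bad event for fixed `d`, `N` -/
def Bad {p q : ℕ} (Z d N : ℕ) (σ : Fin p → Fin q → Bool) : Prop :=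
  ∃ (S : Finset (Fin q)) (e : Fin N → Fin d → ℂ) (α : Fin N → Fin p → ℂ)
    (b γ : Fin N → Fin q → ℂ), Hyp Z S e α b γ ∧ ¬ Good Z S e α b γ σ

theorem bad_count (h1 : S_F4) (h2 : S_GIC) (p q Z d N : ℕ) (hp : 1 ≤ p) (hZ : 1 ≤ Z) :
    (cnt (fun σ : Fin p → Fin q → Bool => Bad Z d N σ) : ℝ) ≤
      ((((q + 1) ^ N * (((2 * p ^ 2 + 1) ^ (2 * d)) ^ N * (((4 * p + 1) ^ Z) ^ N *
        (((4 * q + 1) ^ Z) ^ N * ((4 * q + 1) ^ Z) ^ N))) : ℕ)) : ℝ) *
      ((2 : ℝ) ^ (p * q) * Real.exp (-((N : ℝ) * p / (16 * (Z : ℝ) ^ 3)))) := by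
  classical
  obtain ⟨g1, g2⟩ := h2
  obtain ⟨Fp, hFp, cFp⟩ := g1 p Z
  obtain ⟨Fq, hFq, cFq⟩ := g1 q Z
  obtain ⟨Fd, hFd, cFd⟩ := g2 d (p ^ 2)
  let F : Finset (Finset (Fin q) × (Fin N → Fin d → ℂ) × (Fin N → Fin p → ℂ) ×
      (Fin N → Fin q → ℂ) × (Fin N → Fin q → ℂ)) :=
    ((Finset.univ : Finset (Finset (Fin q))).filter (fun S => S.card ≤ N)) ×ˢ
      (Fintype.piFinset (fun _ : Fin N => Fd)) ×ˢ (Fintype.piFinset (fun _ : Fin N => Fp)) ×ˢ
      (Fintype.piFinset (fun _ : Fin N => Fq)) ×ˢ (Fintype.piFinset (fun _ : Fin N => Fq))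
  have hcard : F.card ≤ (q + 1) ^ N * (((2 * p ^ 2 + 1) ^ (2 * d)) ^ N * (((4 * p + 1) ^ Z) ^ N *
        (((4 * q + 1) ^ Z) ^ N * ((4 * q + 1) ^ Z) ^ N))) := by
    simp only [F, Finset.card_product, Fintype.card_piFinset, Finset.prod_const,
      Finset.card_univ, Fintype.card_fin]
    gcongr
    exact small_sets q N
  have hB0 : 0 ≤ (2 : ℝ) ^ (p * q) * Real.exp (-((N : ℝ) * p / (16 * (Z : ℝ) ^ 3))) := by
    positivity
  have hu := cnt_union F (fun σ : Fin p → Fin q → Bool => Bad Z d N σ)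
    (fun x σ => Hyp Z x.1 x.2.1 x.2.2.1 x.2.2.2.1 x.2.2.2.2 ∧
      ¬ Good Z x.1 x.2.1 x.2.2.1 x.2.2.2.1 x.2.2.2.2 σ)
    ((2 : ℝ) ^ (p * q) * Real.exp (-((N : ℝ) * p / (16 * (Z : ℝ) ^ 3)))) (by
      rintro σ ⟨S, e, α, b, γ, hh, hg⟩
      refine ⟨(S, e, α, b, γ), ?_, hh, hg⟩
      obtain ⟨k1, k2, k3, k4, k5, k6⟩ := hh
      simp only [F, Finset.mem_product, Finset.mem_filter, Finset.mem_univ, true_and,
        Fintype.mem_piFinset]
      refine ⟨?_, fun i => hFd _ (k2 i), fun i => hFp _ (k3 i), fun i => hFq _ (k4 i),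
        fun i => hFq _ (k5 i)⟩
      have hZ3 : 0 < Z ^ 3 := pow_pos hZ 3
      have : S.card ≤ 32 * Z ^ 3 * (d + p + S.card) := by nlinarith
      omega) (by
      intro x _
      by_cases hx : Hyp Z x.1 x.2.1 x.2.2.1 x.2.2.2.1 x.2.2.2.2
      · have h3 := h1 p q d N Z x.1 x.2.1 x.2.2.1 x.2.2.2.1 x.2.2.2.2 hp hZ hx.1 hx.2.2.2.2.1
          hx.2.2.2.2.2
        refine le_trans ?_ h3
        have h4 : (fun σ : Fin p → Fin q → Bool => Hyp Z x.1 x.2.1 x.2.2.1 x.2.2.2.1 x.2.2.2.2 ∧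
            ¬ Good Z x.1 x.2.1 x.2.2.1 x.2.2.2.1 x.2.2.2.2 σ) =
            (fun σ => ¬ Good Z x.1 x.2.1 x.2.2.1 x.2.2.2.1 x.2.2.2.2 σ) := by
          funext σ
          simp [hx]
        rw [h4]
        exact le_refl _
      · have h4 : (fun σ : Fin p → Fin q → Bool => Hyp Z x.1 x.2.1 x.2.2.1 x.2.2.2.1 x.2.2.2.2 ∧
            ¬ Good Z x.1 x.2.1 x.2.2.1 x.2.2.2.1 x.2.2.2.2 σ) = (fun _ => False) := by
          funext σ
          simp [hx]
        rw [h4]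
        have h5 : cnt (fun _ : Fin p → Fin q → Bool => False) = 0 := by
          unfold cnt
          simp
        rw [h5, Nat.cast_zero]
        exact hB0)
  refine hu.trans ?_
  apply mul_le_mul_of_nonneg_right _ hB0
  exact_mod_cast hcard

/-- the numerical estimate: `y ^ 4 = p` -/
theorem numer (Z p q d N : ℕ) (hZ : 1 ≤ Z) (y : ℝ) (hy0 : 0 < y) (hy : y ^ 4 = p)
    (hbig : 32 * (Z : ℝ) ^ 3 * (22 + 12 * Z) ≤ y) (hq : q ≤ 2 ^ (Nat.sqrt p / 4))
    (hd : d ^ 8 ≤ p) :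
    ((((q + 1) ^ N * (((2 * p ^ 2 + 1) ^ (2 * d)) ^ N * (((4 * p + 1) ^ Z) ^ N *
        (((4 * q + 1) ^ Z) ^ N * ((4 * q + 1) ^ Z) ^ N))) : ℕ)) : ℝ) ≤
      Real.exp ((N : ℝ) * p / (32 * (Z : ℝ) ^ 3)) := by
  have hZ1 : (1 : ℝ) ≤ Z := by exact_mod_cast hZ
  have hy1 : 1 ≤ y := by
    have : (1 : ℝ) ≤ (Z : ℝ) ^ 3 := one_le_pow₀ hZ1
    nlinarith
  have hp1 : (1 : ℝ) ≤ p := by
    rw [← hy]; exact one_le_pow₀ hy1
  -- `q ≤ exp (y ^ 2)`
  have hs : ((Nat.sqrt p : ℕ) : ℝ) ≤ y ^ 2 := by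
    have h1 : Nat.sqrt p * Nat.sqrt p ≤ p := Nat.sqrt_le p
    have h2 : ((Nat.sqrt p : ℕ) : ℝ) ^ 2 ≤ (y ^ 2) ^ 2 := by
      have : ((Nat.sqrt p : ℕ) : ℝ) * (Nat.sqrt p : ℕ) ≤ p := by exact_mod_cast h1
      nlinarith
    exact abs_le_of_sq_le_sq' h2 (by positivity) |>.2
  have hqe : (q : ℝ) ≤ Real.exp (y ^ 2) := by
    have h1 : (q : ℝ) ≤ (2 : ℝ) ^ (Nat.sqrt p / 4) := by exact_mod_cast hq
    have h2 : (2 : ℝ) ^ (Nat.sqrt p / 4) ≤ (2 : ℝ) ^ (Nat.sqrt p) :=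
      pow_le_pow_right₀ (by norm_num) (Nat.div_le_self _ _)
    have h3 : (2 : ℝ) ^ (Nat.sqrt p) ≤ (Real.exp 1) ^ (Nat.sqrt p) := by
      apply pow_le_pow_left₀ (by norm_num)
      have := Real.add_one_le_exp (1 : ℝ)
      linarith
    have h4 : (Real.exp 1) ^ (Nat.sqrt p) = Real.exp ((Nat.sqrt p : ℕ) : ℝ) := by
      rw [← Real.exp_nat_mul, mul_one]
    calc (q : ℝ) ≤ _ := h1
      _ ≤ _ := h2
      _ ≤ _ := h3
      _ = _ := h4
      _ ≤ _ := Real.exp_le_exp.mpr hs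
  have e1 : Real.exp 1 ≥ 2 := by
    have := Real.add_one_le_exp (1 : ℝ)
    linarith
  have e2 : Real.exp 2 ≥ 5 := by
    have h1 : Real.exp 2 = Real.exp 1 * Real.exp 1 := by rw [← Real.exp_add]; norm_num
    have h2 := Real.exp_one_gt_d9
    nlinarith
  have ey : 1 ≤ Real.exp (y ^ 2) := Real.one_le_exp (by positivity)
  have hyexp : y ≤ Real.exp y := by
    have := Real.add_one_le_exp y
    linarith
  -- the factors
  have f1 : (q : ℝ) + 1 ≤ Real.exp (1 + y ^ 2) := by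
    rw [Real.exp_add]
    nlinarith
  have f4 : 4 * (q : ℝ) + 1 ≤ Real.exp (2 + y ^ 2) := by
    rw [Real.exp_add]
    nlinarith
  have hp4 : (p : ℝ) ≤ Real.exp (4 * y) := by
    rw [← hy]
    have : Real.exp (4 * y) = Real.exp y ^ 4 := by
      rw [← Real.exp_nat_mul]; norm_num
    rw [this]
    exact pow_le_pow_left₀ hy0.le hyexp 4
  have f3 : 4 * (p : ℝ) + 1 ≤ Real.exp (2 + 4 * y) := by
    rw [Real.exp_add]
    have : 0 < Real.exp (4 * y) := Real.exp_pos _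
    nlinarith
  have f2 : 2 * (p : ℝ) ^ 2 + 1 ≤ Real.exp (2 + 8 * y) := by
    have h1 : Real.exp (2 + 8 * y) = Real.exp 2 * Real.exp (4 * y) ^ 2 := by
      rw [← Real.exp_nat_mul, ← Real.exp_add]; congr 1; push_cast; ring
    rw [h1]
    have h2 : (p : ℝ) ^ 2 ≤ Real.exp (4 * y) ^ 2 := pow_le_pow_left₀ (by positivity) hp4 2
    have h3 : (1 : ℝ) ≤ (p : ℝ) ^ 2 := one_le_pow₀ hp1
    nlinarith
  have hdy : (d : ℝ) ≤ y ^ 2 := by
    rcases Nat.eq_zero_or_pos d with h0 | h0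
    · rw [h0, Nat.cast_zero]; positivity
    · have h1 : d ^ 2 ≤ p := (Nat.pow_le_pow_right h0 (by norm_num : 2 ≤ 8)).trans hd
      have h2 : (d : ℝ) ^ 2 ≤ (y ^ 2) ^ 2 := by
        have : (d : ℝ) ^ 2 ≤ p := by exact_mod_cast h1
        nlinarith
      exact abs_le_of_sq_le_sq' h2 (by positivity) |>.2
  push_cast
  have key : ((q : ℝ) + 1) * ((2 * (p : ℝ) ^ 2 + 1) ^ (2 * d) * ((4 * (p : ℝ) + 1) ^ Z *
      ((4 * (q : ℝ) + 1) ^ Z * (4 * (q : ℝ) + 1) ^ Z))) ≤ Real.exp ((p : ℝ) / (32 * (Z : ℝ) ^ 3)) := by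
    have g2 : (2 * (p : ℝ) ^ 2 + 1) ^ (2 * d) ≤ Real.exp (2 * d * (2 + 8 * y)) := by
      calc _ ≤ (Real.exp (2 + 8 * y)) ^ (2 * d) := pow_le_pow_left₀ (by positivity) f2 _
        _ = _ := by rw [← Real.exp_nat_mul]; push_cast; ring_nf
    have g3 : (4 * (p : ℝ) + 1) ^ Z ≤ Real.exp (Z * (2 + 4 * y)) := by
      calc _ ≤ (Real.exp (2 + 4 * y)) ^ Z := pow_le_pow_left₀ (by positivity) f3 _
        _ = _ := by rw [← Real.exp_nat_mul]
    have g4 : (4 * (q : ℝ) + 1) ^ Z ≤ Real.exp (Z * (2 + y ^ 2)) := by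
      calc _ ≤ (Real.exp (2 + y ^ 2)) ^ Z := pow_le_pow_left₀ (by positivity) f4 _
        _ = _ := by rw [← Real.exp_nat_mul]
    calc ((q : ℝ) + 1) * ((2 * (p : ℝ) ^ 2 + 1) ^ (2 * d) * ((4 * (p : ℝ) + 1) ^ Z *
          ((4 * (q : ℝ) + 1) ^ Z * (4 * (q : ℝ) + 1) ^ Z)))
        ≤ Real.exp (1 + y ^ 2) * (Real.exp (2 * d * (2 + 8 * y)) * (Real.exp (Z * (2 + 4 * y)) *
          (Real.exp (Z * (2 + y ^ 2)) * Real.exp (Z * (2 + y ^ 2))))) := by
          gcongr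
      _ = Real.exp (1 + y ^ 2 + (2 * d * (2 + 8 * y) + (Z * (2 + 4 * y) +
          (Z * (2 + y ^ 2) + Z * (2 + y ^ 2))))) := by
          simp only [Real.exp_add]
      _ ≤ _ := by
          apply Real.exp_le_exp.mpr
          rw [le_div_iff₀ (by positivity)]
          have hZ3 : 0 < 32 * (Z : ℝ) ^ 3 := by positivity
          -- everything is at most `(22 + 12 Z) y ^ 3`
          have y2 : y ≤ y ^ 2 := by nlinarith
          have y3 : y ^ 2 ≤ y ^ 3 := by nlinarith [sq_nonneg y]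
          have y13 : (1 : ℝ) ≤ y ^ 3 := one_le_pow₀ hy1
          have k1 : 2 * (d : ℝ) * (2 + 8 * y) ≤ 20 * y ^ 3 := by
            have : 2 * (d : ℝ) * (2 + 8 * y) ≤ 2 * y ^ 2 * (10 * y) := by
              apply mul_le_mul
              · linarith
              · linarith
              · positivity
              · positivity
            calc _ ≤ _ := this
              _ = _ := by ring
          have k2 : (Z : ℝ) * (2 + 4 * y) ≤ 6 * Z * y ^ 3 := by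
            have : 2 + 4 * y ≤ 6 * y ^ 3 := by linarith
            nlinarith
          have k3 : (Z : ℝ) * (2 + y ^ 2) ≤ 3 * Z * y ^ 3 := by
            have : 2 + y ^ 2 ≤ 3 * y ^ 3 := by linarith
            nlinarith
          have k4 : 1 + y ^ 2 + (2 * d * (2 + 8 * y) + (Z * (2 + 4 * y) +
              (Z * (2 + y ^ 2) + Z * (2 + y ^ 2)))) ≤ (22 + 12 * Z) * y ^ 3 := by
            nlinarith
          calc _ ≤ (22 + 12 * Z) * y ^ 3 * (32 * (Z : ℝ) ^ 3) :=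
                mul_le_mul_of_nonneg_right k4 hZ3.le
            _ = (32 * (Z : ℝ) ^ 3 * (22 + 12 * Z)) * y ^ 3 := by ring
            _ ≤ y * y ^ 3 := by gcongr
            _ = p := by rw [← hy]; ring
  have h5 := pow_le_pow_left₀ (by positivity) key N
  have h6 : Real.exp ((p : ℝ) / (32 * (Z : ℝ) ^ 3)) ^ N =
      Real.exp ((N : ℝ) * p / (32 * (Z : ℝ) ^ 3)) := by
    rw [← Real.exp_nat_mul]; congr 1; ring
  rw [h6] at h5
  refine le_trans (le_of_eq ?_) h5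
  rw [mul_pow, mul_pow, mul_pow, mul_pow]

theorem r4 (h1 : S_F4) (h2 : S_GIC) : S_R4 := by
  classical
  intro Z L hZ hL
  refine ⟨(32 * Z ^ 3 * (22 + 12 * Z)) ^ 4 + 256 * Z ^ 3 * L + 1, fun p q hp hq => ?_⟩
  have hp1 : 1 ≤ p := by omega
  have hZ1 : (1 : ℝ) ≤ Z := by exact_mod_cast hZ
  have hL1 : (1 : ℝ) ≤ L := by exact_mod_cast hL
  have hp1' : (1 : ℝ) ≤ p := by exact_mod_cast hp1
  have hpR : (32 * (Z : ℝ) ^ 3 * (22 + 12 * Z)) ^ 4 ≤ p := by
    have : (32 * Z ^ 3 * (22 + 12 * Z)) ^ 4 ≤ p := by omega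
    exact_mod_cast this
  have hpL : 256 * (Z : ℝ) ^ 3 * L ≤ p := by
    have : 256 * Z ^ 3 * L ≤ p := by omega
    exact_mod_cast this
  set y : ℝ := (p : ℝ) ^ ((1 : ℝ) / 4) with hydef
  have hy0 : 0 < y := by positivity
  have hy : y ^ 4 = p := by
    rw [hydef, ← Real.rpow_natCast, ← Real.rpow_mul (by positivity)]
    norm_num
  have hbig : 32 * (Z : ℝ) ^ 3 * (22 + 12 * Z) ≤ y := by
    rw [← hy] at hpR
    exact le_of_pow_le_pow_left₀ (by norm_num) hy0.le hpR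
  have hu := cnt_union ((Finset.range (p + 1)) ×ˢ (Finset.range (L * p + 1)))
    (fun σ : Fin p → Fin q → Bool => ¬ P4 Z (32 * Z ^ 3) L σ)
    (fun x σ => (x.1 ^ 8 ≤ p ∧ p ≤ x.2) ∧ Bad Z x.1 x.2 σ)
    ((2 : ℝ) ^ (p * q) * Real.exp (-((p : ℝ) ^ 2 / (32 * (Z : ℝ) ^ 3)))) (by
      intro σ hσ
      unfold P4 at hσ
      push Not at hσ
      obtain ⟨d, N, hd, hN, S, hS, e, α, b, γ, he, hα, hb, hγ, hD, M₁, M₂, M₃, h, hh, hlt⟩ := hσ
      refine ⟨(d, N), ?_, ⟨hd, ?_⟩, S, e, α, b, γ, ⟨hS, he, hα, hb, hγ, hD⟩, ?_⟩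
      · rw [Finset.mem_product, Finset.mem_range, Finset.mem_range]
        refine ⟨?_, by show N < L * p + 1; omega⟩
        show d < p + 1
        have : d ≤ d ^ 8 := Nat.le_self_pow (by norm_num) d
        omega
      · show p ≤ N
        have hZ3 : 0 < Z ^ 3 := pow_pos hZ 3
        have : p ≤ 32 * Z ^ 3 * (d + p + S.card) := by nlinarith
        omega
      · intro hg
        exact absurd (hg M₁ M₂ M₃ h hh) (not_le.mpr hlt)) (by
      rintro ⟨d, N⟩ -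
      by_cases hx : d ^ 8 ≤ p ∧ p ≤ N
      · have h4 : (fun σ : Fin p → Fin q → Bool => (d ^ 8 ≤ p ∧ p ≤ N) ∧ Bad Z d N σ) =
            (fun σ => Bad Z d N σ) := by
          funext σ
          simp [hx]
        show (cnt (fun σ : Fin p → Fin q → Bool => (d ^ 8 ≤ p ∧ p ≤ N) ∧ Bad Z d N σ) : ℝ) ≤ _
        rw [h4]
        refine (bad_count h1 h2 p q Z d N hp1 hZ).trans ?_
        have h5 := numer Z p q d N hZ y hy0 hy hbig hq hx.1
        refine (mul_le_mul_of_nonneg_right h5 (by positivity)).trans ?_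
        have hpN : (p : ℝ) ≤ N := by exact_mod_cast hx.2
        calc Real.exp ((N : ℝ) * p / (32 * (Z : ℝ) ^ 3)) *
              ((2 : ℝ) ^ (p * q) * Real.exp (-((N : ℝ) * p / (16 * (Z : ℝ) ^ 3))))
            = (2 : ℝ) ^ (p * q) * (Real.exp ((N : ℝ) * p / (32 * (Z : ℝ) ^ 3)) *
              Real.exp (-((N : ℝ) * p / (16 * (Z : ℝ) ^ 3)))) := by ring
          _ = (2 : ℝ) ^ (p * q) * Real.exp (-((N : ℝ) * p / (32 * (Z : ℝ) ^ 3))) := by
              rw [← Real.exp_add]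
              congr 2
              have : (Z : ℝ) ^ 3 ≠ 0 := by positivity
              field_simp
              ring
          _ ≤ _ := by
              gcongr
              nlinarith
      · have h4 : (fun σ : Fin p → Fin q → Bool => (d ^ 8 ≤ p ∧ p ≤ N) ∧ Bad Z d N σ) =
            (fun _ => False) := by
          funext σ
          simp [hx]
        show (cnt (fun σ : Fin p → Fin q → Bool => (d ^ 8 ≤ p ∧ p ≤ N) ∧ Bad Z d N σ) : ℝ) ≤ _
        rw [h4]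
        have h5 : cnt (fun _ : Fin p → Fin q → Bool => False) = 0 := by
          unfold cnt
          simp
        rw [h5, Nat.cast_zero]
        positivity)
  refine hu.trans ?_
  rw [Finset.card_product, Finset.card_range, Finset.card_range]
  push_cast
  set u : ℝ := (p : ℝ) ^ 2 / (32 * (Z : ℝ) ^ 3) with hudef
  have hu0 : 0 < u := by positivity
  have hexp : Real.exp (-u) ≤ 2 / u ^ 2 := by
    rw [Real.exp_neg, inv_eq_one_div, div_le_div_iff₀ (Real.exp_pos _) (by positivity)]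
    have := Real.quadratic_le_exp_of_nonneg hu0.le
    nlinarith
  have hmain : ((p : ℝ) + 1) * (L * p + 1) * Real.exp (-u) ≤ 1 / 8 := by
    have k1 : ((p : ℝ) + 1) * (L * p + 1) ≤ 4 * L * p ^ 2 := by
      have q1 : (p : ℝ) + 1 ≤ 2 * p := by linarith
      have q2 : (L : ℝ) * p + 1 ≤ 2 * (L * p) := by nlinarith
      calc ((p : ℝ) + 1) * (L * p + 1) ≤ (2 * p) * (2 * (L * p)) := by gcongr
        _ = _ := by ring
    calc ((p : ℝ) + 1) * (L * p + 1) * Real.exp (-u)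
        ≤ 4 * L * p ^ 2 * (2 / u ^ 2) := by gcongr
      _ = 8 * L * (32 * (Z : ℝ) ^ 3) ^ 2 / p ^ 2 := by
          rw [hudef]; field_simp; ring
      _ ≤ 1 / 8 := by
          rw [div_le_div_iff₀ (by positivity) (by norm_num)]
          have k2 : (256 * (Z : ℝ) ^ 3 * L) ^ 2 ≤ (p : ℝ) ^ 2 :=
            pow_le_pow_left₀ (by positivity) hpL 2
          have k3 : 8 * (L : ℝ) * (32 * (Z : ℝ) ^ 3) ^ 2 * 8 ≤ (256 * (Z : ℝ) ^ 3 * L) ^ 2 := by
            have : (L : ℝ) ≤ L ^ 2 := by nlinarith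
            have h9 : (0 : ℝ) ≤ ((Z : ℝ) ^ 3) ^ 2 := by positivity
            nlinarith
          linarith
  calc ((p : ℝ) + 1) * (L * p + 1) * ((2 : ℝ) ^ (p * q) * Real.exp (-u))
      = (2 : ℝ) ^ (p * q) * (((p : ℝ) + 1) * (L * p + 1) * Real.exp (-u)) := by ring
    _ ≤ (2 : ℝ) ^ (p * q) * (1 / 8) := by gcongr
    _ = (2 : ℝ) ^ (p * q) / 8 := by ring

end Pool.Agent.Helper64.HL
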